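import Pool.Agent.helper74.FD.SpecF

set_option autoImplicit false

open MeasureTheory Filter Set
open scoped ContDiff Topology ComplexConjugate

namespace Pool.Agent.FD

/-- shifted kernel has compact support -/
theorem FPD_cs (κ : ℝ → ℂ) (hκ : ∀ ξ, 1 / 16 < |ξ| → κ ξ = 0) (t : ℝ) :
    HasCompactSupport (fun ξ => κ (ξ - t)) := by
  refine HasCompactSupport.intro (K := Icc (t - 1 / 16) (t + 1 / 16)) isCompact_Icc ?_
  intro x hx
  refine hκ _ ?_
  rw [Set.mem_Icc, not_and_or] at hx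
  rcases hx with h | h
  · push Not at h
    rw [abs_of_neg (by linarith)]
    linarith
  · push Not at h
    rw [abs_of_pos (by linarith)]
    linarith

theorem FPD_cont (κ : ℝ → ℂ) (hc : Continuous κ) (t : ℝ) : Continuous (fun ξ => κ (ξ - t)) :=
  hc.comp (continuous_id.sub continuous_const)

theorem FPD_exp_cont (v : ℝ) :
    Continuous (fun ξ : ℝ => Complex.exp (((2 * Real.pi * v * ξ : ℝ) : ℂ) * Complex.I)) := by
  fun_prop

/-- translation of the kernel -/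
theorem FPD_shift (κ : ℝ → ℂ) (t v : ℝ) :
    fti (fun ξ => κ (ξ - t)) v = Complex.exp (((2 * Real.pi * v * t : ℝ) : ℂ) * Complex.I) * fti κ v := by
  unfold fti
  have h1 : ∫ ξ : ℝ, κ (ξ - t) * Complex.exp (((2 * Real.pi * v * ξ : ℝ) : ℂ) * Complex.I) =
      ∫ ξ : ℝ, (fun η : ℝ => κ η * Complex.exp (((2 * Real.pi * v * (η + t) : ℝ) : ℂ) * Complex.I)) (ξ - t) := by
    refine integral_congr_ae (Eventually.of_forall fun ξ => ?_)
    simp only [sub_add_cancel]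
  rw [h1, integral_sub_right_eq_self (fun η : ℝ => κ η *
    Complex.exp (((2 * Real.pi * v * (η + t) : ℝ) : ℂ) * Complex.I)) t, ← integral_const_mul]
  refine integral_congr_ae (Eventually.of_forall fun η => ?_)
  have h2 : Complex.exp (((2 * Real.pi * v * (η + t) : ℝ) : ℂ) * Complex.I) =
      Complex.exp (((2 * Real.pi * v * t : ℝ) : ℂ) * Complex.I) *
        Complex.exp (((2 * Real.pi * v * η : ℝ) : ℂ) * Complex.I) := by
    rw [← Complex.exp_add]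
    congr 1
    push_cast
    ring
  simp only [h2]
  ring

/-- the inverse transform of the sum -/
theorem FPD_sum (κ : ℝ → ℂ) (hc : Continuous κ) (hκ : ∀ ξ, 1 / 16 < |ξ| → κ ξ = 0) (J : Finset ℤ)
    (a : ℤ → ℂ) (v : ℝ) :
    fti (fun ξ => ∑ j ∈ J, a j * κ (ξ - (j : ℝ) / 4)) v =
      fti κ v * ∑ j ∈ J, a j * Complex.exp (((Real.pi * j * v / 2 : ℝ) : ℂ) * Complex.I) := by
  have h1 : fti (fun ξ => ∑ j ∈ J, a j * κ (ξ - (j : ℝ) / 4)) v =
      ∑ j ∈ J, a j * fti (fun ξ => κ (ξ - (j : ℝ) / 4)) v := by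
    unfold fti
    have h2 : ∀ ξ : ℝ, (∑ j ∈ J, a j * κ (ξ - (j : ℝ) / 4)) *
        Complex.exp (((2 * Real.pi * v * ξ : ℝ) : ℂ) * Complex.I) =
        ∑ j ∈ J, a j * (κ (ξ - (j : ℝ) / 4) * Complex.exp (((2 * Real.pi * v * ξ : ℝ) : ℂ) * Complex.I)) := by
      intro ξ
      rw [Finset.sum_mul]
      exact Finset.sum_congr rfl fun j _ => by ring
    simp only [h2]
    rw [integral_finsetSum]
    · exact Finset.sum_congr rfl fun j _ => integral_const_mul _ _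
    · intro j _
      refine Integrable.const_mul ?_ _
      refine Continuous.integrable_of_hasCompactSupport ((FPD_cont κ hc _).mul (FPD_exp_cont v)) ?_
      exact (FPD_cs κ hκ _).mul_right
  rw [h1, Finset.mul_sum]
  refine Finset.sum_congr rfl fun j _ => ?_
  rw [FPD_shift κ ((j : ℝ) / 4) v]
  have h3 : 2 * Real.pi * v * ((j : ℝ) / 4) = Real.pi * j * v / 2 := by ring
  rw [h3]
  ring

/-- the supports are disjoint -/
theorem FPD_norm (κ : ℝ → ℂ) (hκ : ∀ ξ, 1 / 16 < |ξ| → κ ξ = 0) (J : Finset ℤ) (a : ℤ → ℂ) (ξ : ℝ) :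
    ‖∑ j ∈ J, a j * κ (ξ - (j : ℝ) / 4)‖ ^ 2 = ∑ j ∈ J, ‖a j‖ ^ 2 * ‖κ (ξ - (j : ℝ) / 4)‖ ^ 2 := by
  by_cases h : ∃ j ∈ J, κ (ξ - (j : ℝ) / 4) ≠ 0
  · obtain ⟨j₀, hj₀, hne⟩ := h
    have hz : ∀ j ∈ J, j ≠ j₀ → κ (ξ - (j : ℝ) / 4) = 0 := by
      intro j _ hj
      refine hκ _ ?_
      have h1 : |ξ - (j₀ : ℝ) / 4| ≤ 1 / 16 := by
        by_contra hcon
        push Not at hcon
        exact hne (hκ _ hcon)
      have h2 : (1 : ℝ) ≤ |(j : ℝ) - j₀| := by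
        have h3 : (1 : ℤ) ≤ |j - j₀| := Int.one_le_abs (sub_ne_zero.mpr hj)
        have h4 : ((1 : ℤ) : ℝ) ≤ ((|j - j₀| : ℤ) : ℝ) := by exact_mod_cast h3
        push_cast at h4
        exact h4
      by_contra hcon
      push Not at hcon
      have h5 : |(j : ℝ) - j₀| ≤ 1 / 2 := by
        rw [abs_le] at h1 hcon ⊢
        constructor <;> linarith [h1.1, h1.2, hcon.1, hcon.2]
      linarith
    rw [Finset.sum_eq_single_of_mem j₀ hj₀ (fun j hj hne' => by rw [hz j hj hne', mul_zero]),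
      Finset.sum_eq_single_of_mem j₀ hj₀ (fun j hj hne' => by rw [hz j hj hne', norm_zero]; ring),
      norm_mul, mul_pow]
  · push Not at h
    rw [Finset.sum_eq_zero (fun j hj => by rw [h j hj, mul_zero]),
      Finset.sum_eq_zero (fun j hj => by rw [h j hj, norm_zero]; ring), norm_zero]
    ring

theorem FPD_int (κ : ℝ → ℂ) (hc : Continuous κ) (hκ : ∀ ξ, 1 / 16 < |ξ| → κ ξ = 0) (J : Finset ℤ)
    (a : ℤ → ℂ) :
    ∫ ξ : ℝ, ‖∑ j ∈ J, a j * κ (ξ - (j : ℝ) / 4)‖ ^ 2 = (∑ j ∈ J, ‖a j‖ ^ 2) * ∫ ξ, ‖κ ξ‖ ^ 2 := by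
  simp only [FPD_norm κ hκ J a]
  rw [integral_finsetSum, Finset.sum_mul]
  · refine Finset.sum_congr rfl fun j _ => ?_
    rw [integral_const_mul, integral_sub_right_eq_self (fun η : ℝ => ‖κ η‖ ^ 2) ((j : ℝ) / 4)]
  · intro j _
    refine Integrable.const_mul ?_ _
    refine Continuous.integrable_of_hasCompactSupport (((FPD_cont κ hc _).norm).pow 2) ?_
    refine HasCompactSupport.intro (K := Icc ((j : ℝ) / 4 - 1 / 16) ((j : ℝ) / 4 + 1 / 16)) isCompact_Icc ?_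
    intro x hx
    have h1 : κ (x - (j : ℝ) / 4) = 0 := by
      refine hκ _ ?_
      rw [Set.mem_Icc, not_and_or] at hx
      rcases hx with h | h
      · push Not at h
        rw [abs_of_neg (by linarith)]
        linarith
      · push Not at h
        rw [abs_of_pos (by linarith)]
        linarith
    rw [h1, norm_zero]
    ring

theorem FPD_proof (hFT0 : FT0_stmt) (hFT1 : FT1_stmt) (hBM1 : BM1_stmt) (hPRF : PRF_stmt) (hFPC : FPC_stmt) :
    FPD_stmt := by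
  obtain ⟨κ, χ, C, hκc, hκs, hκi, hχκ, hχc, hχi, hχ1, hχ9, _⟩ := hBM1
  obtain ⟨_, _, _, hinv, _⟩ := hFT0
  obtain ⟨hp1, hp2, _, _, hp5, hp6, _, _, _⟩ := hPRF
  intro ν L ε hν hν4 hL hε
  obtain ⟨I, hI⟩ : ∃ I : ℝ, I = ∫ ξ, ‖κ ξ‖ ^ 2 := ⟨_, rfl⟩
  rw [← hI] at hκi
  obtain ⟨h, hh0, hh1, hmain⟩ := hFPC (ν / 2) (max 1 (max (1 / 4 * L) (4 * (1 / 16) / ν))) (4 / 5 * ε / I)
    (by linarith) (by linarith) (le_max_left _ _) (by positivity)
  refine ⟨h, hh0, hh1, ?_⟩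
  intro J Y a hJ hYm hY01 hYp
  obtain ⟨S, hS⟩ : ∃ S : ℝ → ℂ, S = fun v => ∑ j ∈ J, a j *
      Complex.exp (((Real.pi * j * v / 2 : ℝ) : ℂ) * Complex.I) := ⟨_, rfl⟩
  obtain ⟨m, hm⟩ : ∃ m : ℝ → ℂ, m = fun ξ => ∑ j ∈ J, a j * κ (ξ - (j : ℝ) / 4) := ⟨_, rfl⟩
  obtain ⟨X, hX⟩ : ∃ X : Set ℝ, X = fat (1 / 16) (dil (1 / 4) {x : ℝ | ∃ j ∈ J, x = (j : ℝ)}) := ⟨_, rfl⟩
  have hSc : Continuous S := by
    rw [hS]
    refine continuous_finsetSum _ fun j _ => ?_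
    fun_prop
  have hSb : ∀ v, ‖S v‖ ≤ ∑ j ∈ J, ‖a j‖ := by
    intro v
    rw [hS]
    refine (norm_sum_le _ _).trans (Finset.sum_le_sum fun j _ => ?_)
    rw [norm_mul, Complex.norm_exp_ofReal_mul_I, mul_one]
  have hf : fti m = fun v => (χ v : ℂ) * S v := by
    funext v
    rw [hm, FPD_sum κ hκc hκs J a v, hχκ v, hS]
  have hfc : Continuous (fti m) := by
    rw [hf]
    exact (Complex.continuous_ofReal.comp hχc).mul hSc
  have hfi : Integrable (fti m) := by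
    rw [hf]
    have h1 : Integrable (fun v => (χ v : ℂ)) := hχi.ofReal
    exact Integrable.mul_bdd (c := ∑ j ∈ J, ‖a j‖) h1 hSc.aestronglyMeasurable
      (Eventually.of_forall hSb)
  have hmc : Continuous m := by
    rw [hm]
    exact continuous_finsetSum _ fun j _ => continuous_const.mul (FPD_cont κ hκc _)
  have hmi : Integrable m := by
    rw [hm]
    refine integrable_finsetSum _ fun j _ => Integrable.const_mul ?_ _
    exact (FPD_cont κ hκc _).integrable_of_hasCompactSupport (FPD_cs κ hκs _)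
  have hft : ∀ ξ, ft (fti m) ξ = m ξ := hinv m hmc hmi hfi
  have hbd : Bd {x : ℝ | ∃ j ∈ J, x = (j : ℝ)} := by
    refine ⟨∑ j ∈ J, |(j : ℝ)|, ?_⟩
    rintro x ⟨j, hj, rfl⟩
    exact Finset.single_le_sum (f := fun j : ℤ => |(j : ℝ)|) (fun i _ => abs_nonneg _) hj
  have hXbd : Bd X := by
    rw [hX]
    exact (hp6 (1 / 16) (1 / 4) _ (hp6 (1 / 16) (1 / 4) _ hbd).2).1
  have hCX : CX X (fti m) := by
    refine ⟨hXbd, hfc, hfi, ?_⟩
    intro ξ hξ
    rw [hft ξ, hm]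
    refine Finset.sum_eq_zero fun j hj => ?_
    have h1 : κ (ξ - (j : ℝ) / 4) = 0 := by
      refine hκs _ ?_
      by_contra hcon
      push Not at hcon
      refine hξ ?_
      rw [hX]
      refine ⟨1 / 4 * (j : ℝ), ⟨(j : ℝ), ⟨j, hj, rfl⟩, rfl⟩, ?_⟩
      rw [show ξ - 1 / 4 * (j : ℝ) = ξ - (j : ℝ) / 4 by ring]
      exact hcon
    rw [h1, mul_zero]
  have hPor : Por (ν / 2) (max 1 (max (1 / 4 * L) (4 * (1 / 16) / ν))) X := by
    have h1 := hp2 ν L (1 / 4) _ (by norm_num) hJ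
    have h2 := hp1 ν (1 / 4 * L) (1 / 16) _ hν (by positivity) (by norm_num) h1
    rw [hX]
    exact hp5 (ν / 2) (ν / 2) (max (1 / 4 * L) (4 * (1 / 16) / ν)) _ _ _ (by linarith) le_rfl
      (le_trans (by positivity) (le_max_left _ _)) (le_max_right _ _) (Subset.refl _) h2
  have hPorS : PorS (ν / 2) h Y := by
    intro x y hxy hxy1
    obtain ⟨c, hc1, hc2, hc3⟩ := hYp x y hxy hxy1
    refine ⟨c, hc1, ?_, ?_⟩
    · nlinarith
    · intro z hz hcz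
      exact hc3 z hz ⟨hcz.1, by nlinarith [hcz.2]⟩
  have h1 := hmain X Y (fti m) hPor hCX hYm hPorS
  obtain ⟨_, _, _, _, _, _, hf2, _, hpl⟩ := hFT1 X (fti m) hCX
  have h2 : ∫ x, ‖fti m x‖ ^ 2 = (∑ j ∈ J, ‖a j‖ ^ 2) * I := by
    rw [← hpl]
    simp only [hft]
    rw [hm, hI]
    exact FPD_int κ hκc hκs J a
  rw [h2] at h1
  have h3 : 4 / 5 * ε / I * ((∑ j ∈ J, ‖a j‖ ^ 2) * I) = 4 / 5 * ε * ∑ j ∈ J, ‖a j‖ ^ 2 := by
    field_simp
  rw [h3] at h1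
  -- lower bound on `Y`
  have hSi : IntegrableOn (fun v => ‖S v‖ ^ 2) Y := by
    have h4 : IntegrableOn (fun v => ‖S v‖ ^ 2) (Icc 0 1) :=
      ((hSc.norm).pow 2).continuousOn.integrableOn_compact isCompact_Icc
    exact h4.mono_set hY01
  have h5 : ∫ v in Y, 81 / 100 * ‖S v‖ ^ 2 ≤ ∫ v in Y, ‖fti m v‖ ^ 2 := by
    refine setIntegral_mono_on (hSi.const_mul _) hf2.integrableOn hYm ?_
    intro v hv
    have h6 := hY01 hv
    have h7 := hχ9 v (by rw [abs_of_nonneg h6.1]; exact h6.2)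
    rw [hf]
    have h8 : ‖(χ v : ℂ) * S v‖ ^ 2 = χ v ^ 2 * ‖S v‖ ^ 2 := by
      rw [norm_mul, mul_pow, Complex.norm_real, Real.norm_eq_abs, sq_abs]
    simp only [h8]
    have h9 : 81 / 100 ≤ χ v ^ 2 := by nlinarith
    exact mul_le_mul_of_nonneg_right h9 (by positivity)
  rw [integral_const_mul] at h5
  have h10 : ∫ v in Y, ‖∑ j ∈ J, a j * Complex.exp (((Real.pi * j * v / 2 : ℝ) : ℂ) * Complex.I)‖ ^ 2 =
      ∫ v in Y, ‖S v‖ ^ 2 := by rw [hS]
  rw [h10]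
  have h11 : 0 ≤ ∑ j ∈ J, ‖a j‖ ^ 2 := Finset.sum_nonneg fun j _ => by positivity
  have h12 : 0 ≤ ε * ∑ j ∈ J, ‖a j‖ ^ 2 := by positivity
  nlinarith

end Pool.Agent.FD
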